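import Mathlib

/-! # Class sums of `n^{-1/2}` -/

set_option autoImplicit false

namespace Pool.Agent.LibSM56K

theorem sum_inv_sqrt (K : ℕ) : ∑ k ∈ Finset.Icc 1 K, (k : ℝ) ^ (-(1 / 2) : ℝ) ≤ 2 * √(K : ℝ) := by
  induction K with
  | zero => simp
  | succ K ih =>
    rw [Finset.sum_Icc_succ_top (by omega)]
    have h1 : ((K + 1 : ℕ) : ℝ) ^ (-(1 / 2) : ℝ) = 1 / √((K : ℝ) + 1) := by
      rw [Real.rpow_neg (by positivity), Real.sqrt_eq_rpow]
      push_cast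
      simp
    rw [h1]
    have h2 : (0 : ℝ) ≤ K := Nat.cast_nonneg K
    have h3 : 0 < √((K : ℝ) + 1) := Real.sqrt_pos.2 (by linarith)
    have h4 : √((K : ℝ) + 1) ^ 2 = (K : ℝ) + 1 := Real.sq_sqrt (by linarith)
    have h5 : √(K : ℝ) ^ 2 = (K : ℝ) := Real.sq_sqrt h2
    have h6 : 0 ≤ √(K : ℝ) := Real.sqrt_nonneg _
    have h7 : 1 / √((K : ℝ) + 1) ≤ 2 * √((K : ℝ) + 1) - 2 * √(K : ℝ) := by
      rw [div_le_iff₀ h3]
      nlinarith [sq_nonneg (√((K : ℝ) + 1) - √(K : ℝ))]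
    push_cast
    linarith

theorem class_one (m N r : ℕ) (hm : 1 ≤ m) (hr1 : 1 ≤ r) (hrm : r ≤ m) :
    ∑ n ∈ (Finset.Icc 1 N).filter (fun n : ℕ => (n : ZMod m) = (r : ZMod m)), (n : ℝ) ^ (-(1 / 2) : ℝ) ≤
      (if r ≤ N then (r : ℝ) ^ (-(1 / 2) : ℝ) else 0) + 2 * √(N : ℝ) / m := by
  have hm0 : (0 : ℝ) < m := by exact_mod_cast hm
  have hN0 : (0 : ℝ) ≤ N := Nat.cast_nonneg N
  have hge : ∀ n ∈ (Finset.Icc 1 N).filter (fun n : ℕ => (n : ZMod m) = (r : ZMod m)), ∃ k : ℕ, n = r + k * m ∧ k * m ≤ N := by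
    intro n hn
    rw [Finset.mem_filter, Finset.mem_Icc] at hn
    obtain ⟨⟨h1, h2⟩, h3⟩ := hn
    rw [ZMod.natCast_eq_natCast_iff] at h3
    have hrn : r ≤ n := by
      by_contra hlt
      push Not at hlt
      have h4 : (m : ℕ) ∣ r - n := (Nat.modEq_iff_dvd' hlt.le).1 h3
      have h5 : m ≤ r - n := Nat.le_of_dvd (by omega) h4
      omega
    have h4 : (m : ℕ) ∣ n - r := (Nat.modEq_iff_dvd' hrn).1 h3.symm
    obtain ⟨k, hk⟩ := h4
    refine ⟨k, ?_, ?_⟩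
    · rw [mul_comm k m, ← hk]
      omega
    · rw [mul_comm k m, ← hk]
      omega
  -- split off `n = r`
  have hsplit : ∑ n ∈ (Finset.Icc 1 N).filter (fun n : ℕ => (n : ZMod m) = (r : ZMod m)), (n : ℝ) ^ (-(1 / 2) : ℝ) ≤
      (if r ≤ N then (r : ℝ) ^ (-(1 / 2) : ℝ) else 0) +
      ∑ n ∈ ((Finset.Icc 1 N).filter (fun n : ℕ => (n : ZMod m) = (r : ZMod m))).filter (fun n => n ≠ r), (n : ℝ) ^ (-(1 / 2) : ℝ) := by
    rw [← Finset.sum_filter_add_sum_filter_not ((Finset.Icc 1 N).filter (fun n : ℕ => (n : ZMod m) = (r : ZMod m)))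
      (fun n => n = r)]
    refine add_le_add ?_ le_rfl
    by_cases h : r ≤ N
    · rw [if_pos h]
      have h1 : ((Finset.Icc 1 N).filter (fun n : ℕ => (n : ZMod m) = (r : ZMod m))).filter (fun n => n = r) ⊆ {r} := by
        intro n hn
        rw [Finset.mem_filter] at hn
        exact Finset.mem_singleton.2 hn.2
      refine (Finset.sum_le_sum_of_subset_of_nonneg h1 fun n _ _ => Real.rpow_nonneg (Nat.cast_nonneg n) _).trans ?_
      rw [Finset.sum_singleton]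
    · rw [if_neg h]
      refine le_of_eq (Finset.sum_eq_zero fun n hn => ?_)
      rw [Finset.mem_filter, Finset.mem_filter, Finset.mem_Icc] at hn
      exact absurd (hn.2 ▸ hn.1.1.2) h
  refine hsplit.trans (add_le_add le_rfl ?_)
  -- the rest
  have hinj : ∑ n ∈ ((Finset.Icc 1 N).filter (fun n : ℕ => (n : ZMod m) = (r : ZMod m))).filter (fun n => n ≠ r),
      (n : ℝ) ^ (-(1 / 2) : ℝ) ≤ ∑ k ∈ Finset.Icc 1 (N / m), ((k : ℝ) * m) ^ (-(1 / 2) : ℝ) := by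
    have h1 : ∀ n ∈ ((Finset.Icc 1 N).filter (fun n : ℕ => (n : ZMod m) = (r : ZMod m))).filter (fun n => n ≠ r),
        (n : ℝ) ^ (-(1 / 2) : ℝ) ≤ ((((n - r) / m : ℕ) : ℝ) * m) ^ (-(1 / 2) : ℝ) ∧ (n - r) / m ∈ Finset.Icc 1 (N / m) := by
      intro n hn
      rw [Finset.mem_filter] at hn
      obtain ⟨h2, h3⟩ := hn
      obtain ⟨k, rfl, hk⟩ := hge n h2
      have hk0 : 1 ≤ k := by
        rcases Nat.eq_zero_or_pos k with h4 | h4
        · rw [h4, zero_mul, add_zero] at h3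
          exact absurd rfl h3
        · exact h4
      have e1 : (r + k * m - r) / m = k := by
        rw [Nat.add_sub_cancel_left, Nat.mul_div_cancel k hm]
      rw [e1]
      constructor
      · have hk1 : (1 : ℝ) ≤ k := by exact_mod_cast hk0
        refine Real.rpow_le_rpow_of_nonpos (by positivity) ?_ (by norm_num)
        push_cast
        have : (0 : ℝ) ≤ r := Nat.cast_nonneg r
        linarith
      · rw [Finset.mem_Icc]
        exact ⟨hk0, (Nat.le_div_iff_mul_le hm).2 hk⟩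
    refine (Finset.sum_le_sum fun n hn => (h1 n hn).1).trans ?_
    have h2 : ∀ n ∈ ((Finset.Icc 1 N).filter (fun n : ℕ => (n : ZMod m) = (r : ZMod m))).filter (fun n => n ≠ r),
        ∀ n' ∈ ((Finset.Icc 1 N).filter (fun n : ℕ => (n : ZMod m) = (r : ZMod m))).filter (fun n => n ≠ r),
        (n - r) / m = (n' - r) / m → n = n' := by
      intro n hn n' hn' h
      obtain ⟨k, rfl, -⟩ := hge n (Finset.mem_filter.1 hn).1
      obtain ⟨k', rfl, -⟩ := hge n' (Finset.mem_filter.1 hn').1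
      rw [Nat.add_sub_cancel_left, Nat.add_sub_cancel_left, Nat.mul_div_cancel k hm, Nat.mul_div_cancel k' hm] at h
      rw [h]
    rw [← Finset.sum_image (f := fun k : ℕ => ((k : ℝ) * m) ^ (-(1 / 2) : ℝ)) (g := fun n => (n - r) / m)
      (fun n hn n' hn' h => h2 n hn n' hn' h)]
    refine Finset.sum_le_sum_of_subset_of_nonneg ?_ fun k _ _ => Real.rpow_nonneg (by positivity) _
    intro k hk
    obtain ⟨n, hn, rfl⟩ := Finset.mem_image.1 hk
    exact (h1 n hn).2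
  refine hinj.trans ?_
  have h3 : ∀ k ∈ Finset.Icc 1 (N / m), ((k : ℝ) * m) ^ (-(1 / 2) : ℝ) = (m : ℝ) ^ (-(1 / 2) : ℝ) * (k : ℝ) ^ (-(1 / 2) : ℝ) := by
    intro k _
    rw [Real.mul_rpow (Nat.cast_nonneg k) hm0.le, mul_comm]
  rw [Finset.sum_congr rfl h3, ← Finset.mul_sum]
  have h4 : √((N / m : ℕ) : ℝ) ≤ √(N : ℝ) * (m : ℝ) ^ (-(1 / 2) : ℝ) := by
    have h5 : ((N / m : ℕ) : ℝ) ≤ (N : ℝ) / m := Nat.cast_div_le
    refine (Real.sqrt_le_sqrt h5).trans (le_of_eq ?_)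
    rw [Real.sqrt_div hN0, Real.rpow_neg hm0.le, ← Real.sqrt_eq_rpow, div_eq_mul_inv]
  have h6 : 0 ≤ (m : ℝ) ^ (-(1 / 2) : ℝ) := Real.rpow_nonneg hm0.le _
  have h7 : (m : ℝ) ^ (-(1 / 2) : ℝ) * (m : ℝ) ^ (-(1 / 2) : ℝ) = 1 / m := by
    rw [← Real.rpow_add hm0]
    norm_num
    exact Real.rpow_neg_one _
  calc (m : ℝ) ^ (-(1 / 2) : ℝ) * ∑ k ∈ Finset.Icc 1 (N / m), (k : ℝ) ^ (-(1 / 2) : ℝ)
      ≤ (m : ℝ) ^ (-(1 / 2) : ℝ) * (2 * √((N / m : ℕ) : ℝ)) := mul_le_mul_of_nonneg_left (sum_inv_sqrt _) h6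
    _ ≤ (m : ℝ) ^ (-(1 / 2) : ℝ) * (2 * (√(N : ℝ) * (m : ℝ) ^ (-(1 / 2) : ℝ))) := by
        refine mul_le_mul_of_nonneg_left ?_ h6
        linarith
    _ = 2 * √(N : ℝ) * ((m : ℝ) ^ (-(1 / 2) : ℝ) * (m : ℝ) ^ (-(1 / 2) : ℝ)) := by ring
    _ = 2 * √(N : ℝ) / m := by
        rw [h7]
        ring

/-- The class sums. -/
theorem class_sum (m N : ℕ) [NeZero m] : ∑ c : ZMod m,
    (∑ n ∈ (Finset.Icc 1 N).filter (fun n : ℕ => (n : ZMod m) = c), (n : ℝ) ^ (-(1 / 2) : ℝ)) ^ 2 ≤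
      2 * (1 + Real.log N) + 8 * N / m := by
  have hm : 0 < m := Nat.pos_of_ne_zero (NeZero.ne m)
  have hm0 : (0 : ℝ) < m := by exact_mod_cast hm
  have hN0 : (0 : ℝ) ≤ N := Nat.cast_nonneg N
  obtain ⟨F, hF⟩ : ∃ F : ZMod m → ℝ, F = fun c =>
    (∑ n ∈ (Finset.Icc 1 N).filter (fun n : ℕ => (n : ZMod m) = c), (n : ℝ) ^ (-(1 / 2) : ℝ)) ^ 2 := ⟨_, rfl⟩
  have h0 : ∑ c : ZMod m, F c = ∑ r ∈ Finset.Icc 1 m, F ((r : ℕ) : ZMod m) := by
    symm
    refine Finset.sum_nbij (fun x => ((x : ℕ) : ZMod m)) ?_ ?_ ?_ ?_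
    · intro x _
      exact Finset.mem_univ _
    · intro x hx y hy h
      rw [Finset.coe_Icc, Set.mem_Icc] at hx hy
      have h2 : x ≡ y [MOD m] := (ZMod.natCast_eq_natCast_iff x y m).1 h
      rcases le_total x y with h3 | h3
      · have h4 : m ∣ y - x := (Nat.modEq_iff_dvd' h3).1 h2
        by_contra hne
        have := Nat.le_of_dvd (by omega) h4
        omega
      · have h4 : m ∣ x - y := (Nat.modEq_iff_dvd' h3).1 h2.symm
        by_contra hne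
        have := Nat.le_of_dvd (by omega) h4
        omega
    · intro y _
      by_cases hy : y.val = 0
      · refine ⟨m, ?_, ?_⟩
        · rw [Finset.coe_Icc, Set.mem_Icc]
          exact ⟨hm, le_rfl⟩
        · show ((m : ℕ) : ZMod m) = y
          rw [ZMod.natCast_self]
          exact ((ZMod.val_eq_zero y).1 hy).symm
      · refine ⟨y.val, ?_, ZMod.natCast_zmod_val y⟩
        rw [Finset.coe_Icc, Set.mem_Icc]
        exact ⟨Nat.pos_of_ne_zero hy, (ZMod.val_lt y).le⟩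
    · intro x _
      rfl
  have h1 : ∑ c : ZMod m, F c ≤ ∑ r ∈ Finset.Icc 1 m, (2 * (if r ≤ N then (r : ℝ)⁻¹ else 0) + 8 * N / (m : ℝ) ^ 2) := by
    rw [h0]
    refine Finset.sum_le_sum fun r hr => ?_
    rw [Finset.mem_Icc] at hr
    have h2 := class_one m N r hm hr.1 hr.2
    have h3 : 0 ≤ ∑ n ∈ (Finset.Icc 1 N).filter (fun n : ℕ => (n : ZMod m) = (r : ZMod m)), (n : ℝ) ^ (-(1 / 2) : ℝ) :=
      Finset.sum_nonneg fun n _ => Real.rpow_nonneg (Nat.cast_nonneg n) _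
    rw [hF]
    obtain ⟨A, hA⟩ : ∃ A : ℝ, A = (if r ≤ N then (r : ℝ) ^ (-(1 / 2) : ℝ) else 0) := ⟨_, rfl⟩
    obtain ⟨B, hB⟩ : ∃ B : ℝ, B = 2 * √(N : ℝ) / m := ⟨_, rfl⟩
    have hA2 : A ^ 2 = if r ≤ N then (r : ℝ)⁻¹ else 0 := by
      rw [hA]
      have hr0 : (0 : ℝ) < r := by exact_mod_cast hr.1
      by_cases h : r ≤ N
      · rw [if_pos h, if_pos h, ← Real.rpow_natCast, ← Real.rpow_mul hr0.le, ← Real.rpow_neg_one]
        norm_num
      · rw [if_neg h, if_neg h]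
        norm_num
    have hB2 : 2 * B ^ 2 = 8 * N / (m : ℝ) ^ 2 := by
      rw [hB, div_pow, mul_pow, Real.sq_sqrt hN0]
      ring
    rw [← hA2, ← hB2]
    rw [← hA, ← hB] at h2
    calc _ ≤ (A + B) ^ 2 := pow_le_pow_left₀ h3 h2 2
      _ ≤ 2 * A ^ 2 + 2 * B ^ 2 := by nlinarith [sq_nonneg (A - B)]
  have h2 : ∑ r ∈ Finset.Icc 1 m, (if r ≤ N then (r : ℝ)⁻¹ else 0) ≤ 1 + Real.log N := by
    rw [← Finset.sum_filter]
    have h3 : (Finset.Icc 1 m).filter (fun r => r ≤ N) ⊆ Finset.Icc 1 N := by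
      intro r hr
      rw [Finset.mem_filter, Finset.mem_Icc] at hr
      exact Finset.mem_Icc.2 ⟨hr.1.1, hr.2⟩
    refine (Finset.sum_le_sum_of_subset_of_nonneg h3 fun r _ _ => by positivity).trans ?_
    have h4 := harmonic_le_one_add_log N
    rw [harmonic_eq_sum_Icc] at h4
    push_cast at h4
    exact h4
  show ∑ c : ZMod m, _ ≤ _
  have h5 : ∑ r ∈ Finset.Icc 1 m, (2 * (if r ≤ N then (r : ℝ)⁻¹ else 0) + 8 * N / (m : ℝ) ^ 2) =
      2 * (∑ r ∈ Finset.Icc 1 m, (if r ≤ N then (r : ℝ)⁻¹ else 0)) + 8 * N / m := by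
    rw [Finset.sum_add_distrib, ← Finset.mul_sum, Finset.sum_const, Nat.card_Icc, nsmul_eq_mul, Nat.add_sub_cancel]
    field_simp
  rw [h5] at h1
  rw [hF] at h1
  linarith

end Pool.Agent.LibSM56K
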