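import Pool.Agent.LibSM56K.K4
import Pool.Agent.LibSM56K.K5

/-! # SM56, part A4 (helper34): exact formula `FT_sl`, `FT_Ph_sl`, `rho_le`, `rho_sq`, `Sk_norm`, `Sk_selberg`, `class_sum` -/
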