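import Pool.Agent.LibSM47.D_Defs

/-! # Kloosterman sums for the dual sum of the twisted third moment (board SM56, part A4, helper34) -/

set_option autoImplicit false

namespace Pool.Agent.LibSM56K

open Complex
open Pool.Agent.LibSM47.SD (Tr)

/-- The Kloosterman sum `S(a, b; c)`. -/
noncomputable def Kl (c : ℕ) [NeZero c] (a b : ZMod c) : ℂ :=
  ∑ x : (ZMod c)ˣ, (ZMod.stdAddChar (a * (x : ZMod c) + b * ((x⁻¹ : (ZMod c)ˣ) : ZMod c)) : ℂ)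

/-- The same for every modulus (`0` for `c = 0`). -/
noncomputable def Sk (c : ℕ) (a b : ZMod c) : ℂ := if h : c = 0 then 0 else @Kl c ⟨h⟩ a b

/-- The multiplicity `#{g ∣ q : g ∣ a₂, g ∣ a₃, q/g ∣ a₁, q/g ∣ a₂a₃/g²}`. -/
def rho (q : ℕ) (a : Tr) : ℕ :=
  (q.divisors.filter fun g => g ∣ (a.2.1 : ℕ) ∧ g ∣ (a.2.2 : ℕ) ∧ q / g ∣ (a.1 : ℕ) ∧
    q / g ∣ ((a.2.1 : ℕ) * (a.2.2 : ℕ)) / g ^ 2).card

/-- `∑_{xy = γ} e((αx + βy)/m)`. -/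
noncomputable def K3 (m : ℕ) [NeZero m] (α β γ : ZMod m) : ℂ :=
  ∑ x : ZMod m × ZMod m, if x.1 * x.2 = γ then (ZMod.stdAddChar (α * x.1 + β * x.2) : ℂ) else 0

theorem Sk_eq (c : ℕ) [h : NeZero c] (a b : ZMod c) : Sk c a b = Kl c a b := by
  unfold Sk
  rw [dif_neg h.ne]

end Pool.Agent.LibSM56K
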