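import Pool.Agent.LibSM56K.Defs

/-! # Grouping by the gcd; the symmetry of `K3` -/

set_option autoImplicit false

namespace Pool.Agent.LibSM56K

open Complex

theorem sum_gcd (m : ℕ) (hm : 0 < m) (f : ℕ → ℂ) :
    ∑ x ∈ Finset.range m, f x = ∑ g ∈ m.divisors,
      ∑ x ∈ (Finset.range (m / g)).filter (fun x => Nat.Coprime x (m / g)), f (g * x) := by
  have h1 : ∀ x ∈ Finset.range m, Nat.gcd x m ∈ m.divisors := by
    intro x _
    rw [Nat.mem_divisors]
    exact ⟨Nat.gcd_dvd_right _ _, hm.ne'⟩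
  rw [← Finset.sum_fiberwise_of_maps_to h1]
  refine Finset.sum_congr rfl fun g hg => ?_
  obtain ⟨hgm, -⟩ := Nat.mem_divisors.1 hg
  have hg0 : 0 < g := Nat.pos_of_dvd_of_pos hgm hm
  symm
  refine Finset.sum_nbij (fun x => g * x) ?_ ?_ ?_ ?_
  · intro x hx
    rw [Finset.mem_filter, Finset.mem_range] at hx ⊢
    obtain ⟨h2, h3⟩ := hx
    constructor
    · calc g * x < g * (m / g) := Nat.mul_lt_mul_of_pos_left h2 hg0
        _ = m := Nat.mul_div_cancel' hgm
    · conv_lhs => rw [← Nat.mul_div_cancel' hgm]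
      rw [Nat.gcd_mul_left, h3.gcd_eq_one, mul_one]
  · intro x _ y _ h
    exact Nat.eq_of_mul_eq_mul_left hg0 h
  · intro y hy
    rw [Finset.coe_filter, Set.mem_setOf_eq, Finset.mem_range] at hy
    obtain ⟨h2, h3⟩ := hy
    have hgy : g ∣ y := h3 ▸ Nat.gcd_dvd_left y m
    refine ⟨y / g, ?_, Nat.mul_div_cancel' hgy⟩
    rw [Finset.coe_filter, Set.mem_setOf_eq, Finset.mem_range]
    constructor
    · exact Nat.div_lt_div_of_lt_of_dvd hgm h2
    · rw [← h3]
      exact Nat.coprime_div_gcd_div_gcd (h3 ▸ hg0)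
  · intro x _
    rfl

theorem sum_ZMod (m : ℕ) [NeZero m] (f : ZMod m → ℂ) :
    ∑ x : ZMod m, f x = ∑ x ∈ Finset.range m, f ((x : ℕ) : ZMod m) := by
  symm
  refine Finset.sum_nbij (fun x => ((x : ℕ) : ZMod m)) ?_ ?_ ?_ ?_
  · intro x _
    exact Finset.mem_univ _
  · intro x hx y hy h
    rw [Finset.coe_range, Set.mem_Iio] at hx hy
    have h2 := congrArg ZMod.val h
    rwa [ZMod.val_natCast_of_lt hx, ZMod.val_natCast_of_lt hy] at h2
  · intro y _
    refine ⟨y.val, ?_, ZMod.natCast_zmod_val y⟩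
    rw [Finset.coe_range, Set.mem_Iio]
    exact ZMod.val_lt y
  · intro x _
    rfl

theorem K3_sym (m : ℕ) [NeZero m] (α β γ : ZMod m) : K3 m α β γ = K3 m γ β α := by
  have hm0 : (m : ℂ) ≠ 0 := by
    have := NeZero.ne m
    exact_mod_cast this
  have key : ∀ α β γ : ZMod m, (m : ℂ) * K3 m α β γ =
      ∑ y : ZMod m, ∑ x : ZMod m, ∑ z : ZMod m,
        (ZMod.stdAddChar (α * x + β * y + γ * z - x * y * z) : ℂ) := by
    intro α β γ
    unfold K3
    rw [Fintype.sum_prod_type, Finset.sum_comm, Finset.mul_sum]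
    refine Finset.sum_congr rfl fun y _ => ?_
    rw [Finset.mul_sum]
    refine Finset.sum_congr rfl fun x _ => ?_
    have h2 : ∀ z : ZMod m, (ZMod.stdAddChar (α * x + β * y + γ * z - x * y * z) : ℂ) =
        (ZMod.stdAddChar (α * x + β * y) : ℂ) * (ZMod.stdAddChar (z * (γ - x * y)) : ℂ) := by
      intro z
      rw [← AddChar.map_add_eq_mul]
      congr 1
      ring
    rw [Finset.sum_congr rfl fun z _ => h2 z, ← Finset.mul_sum,
      AddChar.sum_mulShift (γ - x * y) (ZMod.isPrimitive_stdAddChar m), ZMod.card]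
    by_cases h : x * y = γ
    · simp only [h, sub_self, if_true]
      ring
    · have h3 : γ - x * y ≠ 0 := fun h4 => h (sub_eq_zero.1 h4).symm
      simp only [h, h3, if_false]
      simp
  refine mul_left_cancel₀ hm0 ?_
  rw [key, key]
  refine Finset.sum_congr rfl fun y _ => ?_
  rw [Finset.sum_comm]
  refine Finset.sum_congr rfl fun x _ => Finset.sum_congr rfl fun z _ => ?_
  congr 1
  ring

end Pool.Agent.LibSM56K
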