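import Pool.Agent.LibSM56K.K1

/-! # The formula for `K3` -/

set_option autoImplicit false

namespace Pool.Agent.LibSM56K

open Complex

theorem Sk_range (c : ℕ) [NeZero c] (a b : ZMod c) :
    Sk c a b = ∑ x ∈ (Finset.range c).filter (fun x => Nat.Coprime x c),
      (ZMod.stdAddChar (a * ((x : ℕ) : ZMod c) + b * ((x : ℕ) : ZMod c)⁻¹) : ℂ) := by
  rw [Sk_eq]
  unfold Kl
  refine Finset.sum_nbij (fun x => (x : ZMod c).val) ?_ ?_ ?_ ?_
  · intro x _
    rw [Finset.mem_filter, Finset.mem_range]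
    exact ⟨ZMod.val_lt _, ZMod.val_coe_unit_coprime x⟩
  · intro x _ y _ h
    exact Units.ext (ZMod.val_injective c h)
  · intro y hy
    rw [Finset.coe_filter, Set.mem_setOf_eq, Finset.mem_range] at hy
    refine ⟨ZMod.unitOfCoprime y hy.2, Finset.mem_coe.2 (Finset.mem_univ _), ?_⟩
    show ((ZMod.unitOfCoprime y hy.2 : (ZMod c)ˣ) : ZMod c).val = y
    rw [ZMod.coe_unitOfCoprime, ZMod.val_natCast_of_lt hy.1]
  · intro x _
    rw [ZMod.natCast_zmod_val, ZMod.inv_coe_unit]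

theorem e_left (g c : ℕ) [NeZero g] [NeZero c] [NeZero (g * c)] (k : ℤ) :
    (ZMod.stdAddChar ((((g : ℤ) * k : ℤ)) : ZMod (g * c)) : ℂ) = ZMod.stdAddChar ((k : ℤ) : ZMod c) := by
  have hg : (g : ℂ) ≠ 0 := by
    have := NeZero.ne g
    exact_mod_cast this
  have hc : (c : ℂ) ≠ 0 := by
    have := NeZero.ne c
    exact_mod_cast this
  rw [ZMod.stdAddChar_coe, ZMod.stdAddChar_coe]
  congr 1
  push_cast
  field_simp

theorem e_right (g c : ℕ) [NeZero g] [NeZero c] [NeZero (g * c)] (k : ℤ) :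
    (ZMod.stdAddChar ((((c : ℤ) * k : ℤ)) : ZMod (g * c)) : ℂ) = ZMod.stdAddChar ((k : ℤ) : ZMod g) := by
  have hg : (g : ℂ) ≠ 0 := by
    have := NeZero.ne g
    exact_mod_cast this
  have hc : (c : ℂ) ≠ 0 := by
    have := NeZero.ne c
    exact_mod_cast this
  rw [ZMod.stdAddChar_coe, ZMod.stdAddChar_coe]
  congr 1
  push_cast
  field_simp

theorem sum_prog (g c r : ℕ) (hc : 0 < c) (hr : r < c) (F : ℕ → ℂ) :
    ∑ y ∈ (Finset.range (g * c)).filter (fun y => y % c = r), F y = ∑ t ∈ Finset.range g, F (r + c * t) := by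
  symm
  refine Finset.sum_nbij (fun t => r + c * t) ?_ ?_ ?_ ?_
  · intro t ht
    rw [Finset.mem_range] at ht
    rw [Finset.mem_filter, Finset.mem_range]
    constructor
    · calc r + c * t < c + c * t := Nat.add_lt_add_right hr _
        _ = (t + 1) * c := by ring
        _ ≤ g * c := Nat.mul_le_mul_right _ ht
    · rw [Nat.add_mul_mod_self_left, Nat.mod_eq_of_lt hr]
  · intro x _ y _ h
    have h2 : c * x = c * y := Nat.add_left_cancel h
    exact Nat.eq_of_mul_eq_mul_left hc h2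
  · intro y hy
    rw [Finset.coe_filter, Set.mem_setOf_eq, Finset.mem_range] at hy
    refine ⟨y / c, ?_, ?_⟩
    · rw [Finset.coe_range, Set.mem_Iio]
      exact (Nat.div_lt_iff_lt_mul hc).2 hy.1
    · show r + c * (y / c) = y
      rw [← hy.2]
      exact Nat.mod_add_div y c
  · intro x _
    rfl

theorem inner_sum (g c : ℕ) [NeZero g] [NeZero c] [NeZero (g * c)] (x : ℕ) (hx : Nat.Coprime x c) (β γ : ℤ) :
    ∑ y ∈ Finset.range (g * c), (if ((g * x : ℕ) : ZMod (g * c)) * ((y : ℕ) : ZMod (g * c)) = ((γ : ℤ) : ZMod (g * c)) then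
      (ZMod.stdAddChar (((β : ℤ) : ZMod (g * c)) * ((y : ℕ) : ZMod (g * c))) : ℂ) else 0) =
    if (g : ℤ) ∣ β ∧ (g : ℤ) ∣ γ then
      (g : ℂ) * ZMod.stdAddChar ((((β / g * (γ / g) : ℤ)) : ZMod c) * ((x : ℕ) : ZMod c)⁻¹) else 0 := by
  have hg0 : 0 < g := Nat.pos_of_ne_zero (NeZero.ne g)
  have hc0 : 0 < c := Nat.pos_of_ne_zero (NeZero.ne c)
  by_cases hγ : (g : ℤ) ∣ γ
  swap
  · rw [if_neg (fun h => hγ h.2)]
    refine Finset.sum_eq_zero fun y _ => ?_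
    rw [if_neg]
    intro h
    apply hγ
    have h2 : (((g * x * y : ℕ) : ℤ) : ZMod (g * c)) = ((γ : ℤ) : ZMod (g * c)) := by
      rw [← h]
      push_cast
      ring
    rw [ZMod.intCast_eq_intCast_iff_dvd_sub] at h2
    have h3 : (g : ℤ) ∣ γ - ((g * x * y : ℕ) : ℤ) := by
      refine dvd_trans ?_ h2
      push_cast
      exact dvd_mul_right _ _
    have h4 : (g : ℤ) ∣ ((g * x * y : ℕ) : ℤ) := by
      push_cast
      rw [mul_assoc]
      exact dvd_mul_right _ _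
    have h5 := dvd_add h3 h4
    rwa [sub_add_cancel] at h5
  obtain ⟨γ', rfl⟩ := hγ
  have hgz : (g : ℤ) ≠ 0 := by exact_mod_cast hg0.ne'
  obtain ⟨r, hr⟩ : ∃ r : ZMod c, r = ((x : ℕ) : ZMod c)⁻¹ * ((γ' : ℤ) : ZMod c) := ⟨_, rfl⟩
  have hxu : ((x : ℕ) : ZMod c) * ((x : ℕ) : ZMod c)⁻¹ = 1 := ZMod.coe_mul_inv_eq_one x hx
  have hcond : ∀ y : ℕ, (((g * x : ℕ) : ZMod (g * c)) * ((y : ℕ) : ZMod (g * c)) =
      (((g : ℤ) * γ' : ℤ) : ZMod (g * c)) ↔ y % c = r.val) := by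
    intro y
    have h1 : (((g * x : ℕ) : ZMod (g * c)) * ((y : ℕ) : ZMod (g * c)) =
      (((g : ℤ) * γ' : ℤ) : ZMod (g * c))) ↔ ((x : ℕ) : ZMod c) * ((y : ℕ) : ZMod c) = ((γ' : ℤ) : ZMod c) := by
      have e1 : ((g * x : ℕ) : ZMod (g * c)) * ((y : ℕ) : ZMod (g * c)) =
          (((g : ℤ) * (x * y) : ℤ) : ZMod (g * c)) := by
        push_cast
        ring
      have e2 : ((x : ℕ) : ZMod c) * ((y : ℕ) : ZMod c) = (((x * y : ℤ)) : ZMod c) := by
        push_cast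
        ring
      rw [e1, e2, ZMod.intCast_eq_intCast_iff_dvd_sub, ZMod.intCast_eq_intCast_iff_dvd_sub, ← mul_sub]
      push_cast
      exact mul_dvd_mul_iff_left hgz
    rw [h1]
    have h2 : ((x : ℕ) : ZMod c) * ((y : ℕ) : ZMod c) = ((γ' : ℤ) : ZMod c) ↔ ((y : ℕ) : ZMod c) = r := by
      rw [hr]
      constructor
      · intro h
        rw [← h, ← mul_assoc, mul_comm (((x : ℕ) : ZMod c)⁻¹), hxu, one_mul]
      · intro h
        rw [h, ← mul_assoc, hxu, one_mul]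
    rw [h2]
    constructor
    · intro h
      rw [← h, ZMod.val_natCast]
    · intro h
      have h3 : ((y % c : ℕ) : ZMod c) = r := by
        rw [h, ZMod.natCast_zmod_val]
      rw [← h3, ZMod.natCast_mod]
  simp only [hcond]
  rw [← Finset.sum_filter, sum_prog g c r.val hc0 (ZMod.val_lt r)]
  have hF : ∀ t : ℕ, (ZMod.stdAddChar (((β : ℤ) : ZMod (g * c)) * ((r.val + c * t : ℕ) : ZMod (g * c))) : ℂ) =
      (ZMod.stdAddChar (((β * (r.val : ℤ) : ℤ)) : ZMod (g * c)) : ℂ) *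
        (ZMod.stdAddChar (((t : ℕ) : ZMod g) * ((β : ℤ) : ZMod g)) : ℂ) := by
    intro t
    have e1 : ((β : ℤ) : ZMod (g * c)) * ((r.val + c * t : ℕ) : ZMod (g * c)) =
        ((β * (r.val : ℤ) : ℤ) : ZMod (g * c)) + (((c : ℤ) * (β * t) : ℤ) : ZMod (g * c)) := by
      push_cast
      ring
    rw [e1, AddChar.map_add_eq_mul, e_right]
    congr 2
    push_cast
    ring
  rw [Finset.sum_congr rfl fun t _ => hF t, ← Finset.mul_sum,
    ← sum_ZMod g (fun t => (ZMod.stdAddChar (t * ((β : ℤ) : ZMod g)) : ℂ)),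
    AddChar.sum_mulShift _ (ZMod.isPrimitive_stdAddChar g), ZMod.card]
  have hiff : (((β : ℤ) : ZMod g) = 0) ↔ (g : ℤ) ∣ β := ZMod.intCast_zmod_eq_zero_iff_dvd β g
  by_cases hβ : (g : ℤ) ∣ β
  · rw [if_pos (hiff.2 hβ), if_pos ⟨hβ, dvd_mul_right _ _⟩]
    obtain ⟨β', rfl⟩ := hβ
    rw [mul_assoc (g : ℤ) β' _, e_left, Int.mul_ediv_cancel_left _ hgz, Int.mul_ediv_cancel_left _ hgz]
    push_cast
    rw [ZMod.natCast_zmod_val, hr, mul_comm]
    congr 2
    ring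
  · rw [if_neg (fun h => hβ (hiff.1 h)), if_neg (fun h => hβ h.1)]
    simp

theorem K3_formula (m : ℕ) [NeZero m] (α β γ : ℤ) :
    K3 m (α : ZMod m) (β : ZMod m) (γ : ZMod m) = ∑ g ∈ m.divisors, if (g : ℤ) ∣ β ∧ (g : ℤ) ∣ γ then
      (g : ℂ) * Sk (m / g) (α : ZMod (m / g)) (((β / g * (γ / g) : ℤ)) : ZMod (m / g)) else 0 := by
  have hm : 0 < m := Nat.pos_of_ne_zero (NeZero.ne m)
  unfold K3
  rw [Fintype.sum_prod_type, sum_ZMod, sum_gcd m hm]
  refine Finset.sum_congr rfl fun g hg => ?_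
  obtain ⟨⟨c, rfl⟩, -⟩ := Nat.mem_divisors.1 hg
  have hg0 : 0 < g := Nat.pos_of_mul_pos_right hm |> fun h => by
    rcases Nat.eq_zero_or_pos g with h1 | h1
    · rw [h1, zero_mul] at hm
      exact absurd hm (lt_irrefl _)
    · exact h1
  have hc0 : 0 < c := by
    rcases Nat.eq_zero_or_pos c with h1 | h1
    · rw [h1, mul_zero] at hm
      exact absurd hm (lt_irrefl _)
    · exact h1
  haveI : NeZero g := ⟨hg0.ne'⟩
  haveI : NeZero c := ⟨hc0.ne'⟩
  rw [Nat.mul_div_cancel_left c hg0]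
  have h1 : ∀ x ∈ (Finset.range c).filter (fun x => Nat.Coprime x c),
      (∑ y : ZMod (g * c), if ((g * x : ℕ) : ZMod (g * c)) * y = ((γ : ℤ) : ZMod (g * c)) then
        (ZMod.stdAddChar (((α : ℤ) : ZMod (g * c)) * ((g * x : ℕ) : ZMod (g * c)) + ((β : ℤ) : ZMod (g * c)) * y) : ℂ) else 0) =
      (ZMod.stdAddChar (((α : ℤ) : ZMod c) * ((x : ℕ) : ZMod c)) : ℂ) * (if (g : ℤ) ∣ β ∧ (g : ℤ) ∣ γ then
      (g : ℂ) * ZMod.stdAddChar ((((β / g * (γ / g) : ℤ)) : ZMod c) * ((x : ℕ) : ZMod c)⁻¹) else 0) := by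
    intro x hx
    rw [Finset.mem_filter] at hx
    rw [← inner_sum g c x hx.2 β γ, sum_ZMod, Finset.mul_sum]
    refine Finset.sum_congr rfl fun y _ => ?_
    by_cases h : ((g * x : ℕ) : ZMod (g * c)) * ((y : ℕ) : ZMod (g * c)) = ((γ : ℤ) : ZMod (g * c))
    · rw [if_pos h, if_pos h, AddChar.map_add_eq_mul]
      congr 1
      have e1 : ((α : ℤ) : ZMod (g * c)) * ((g * x : ℕ) : ZMod (g * c)) = (((g : ℤ) * (α * x) : ℤ) : ZMod (g * c)) := by
        push_cast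
        ring
      rw [e1, e_left]
      congr 1
      push_cast
      ring
    · rw [if_neg h, if_neg h, mul_zero]
  rw [Finset.sum_congr rfl h1]
  by_cases h : (g : ℤ) ∣ β ∧ (g : ℤ) ∣ γ
  · rw [if_pos h, Sk_range, Finset.mul_sum]
    refine Finset.sum_congr rfl fun x _ => ?_
    rw [if_pos h, AddChar.map_add_eq_mul]
    ring
  · rw [if_neg h]
    refine Finset.sum_eq_zero fun x _ => ?_
    rw [if_neg h, mul_zero]

end Pool.Agent.LibSM56K
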