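import Pool.Agent.LibSM56K.K2

/-! # Selberg's identity and the double sum -/

set_option autoImplicit false

namespace Pool.Agent.LibSM56K

open Complex

/-- Selberg's identity `S(α, β; m) = ∑_{d ∣ (α, β, m)} d S(1, αβ/d²; m/d)`. -/
theorem Sk_selberg (m : ℕ) [NeZero m] (α β : ℤ) :
    Sk m (α : ZMod m) (β : ZMod m) = ∑ d ∈ m.divisors, if (d : ℤ) ∣ α ∧ (d : ℤ) ∣ β then
      (d : ℂ) * Sk (m / d) 1 (((α / d * (β / d) : ℤ)) : ZMod (m / d)) else 0 := by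
  have hm : 0 < m := Nat.pos_of_ne_zero (NeZero.ne m)
  have h1 := K3_formula m α β 1
  have h2 := K3_formula m 1 β α
  rw [← K3_sym, h1] at h2
  rw [Finset.sum_eq_single 1] at h2
  · rw [if_pos ⟨by simp, by simp⟩] at h2
    have h3 : (((1 : ℕ) : ℂ)) * Sk (m / 1) (α : ZMod (m / 1)) (((β / (1 : ℕ) * (1 / (1 : ℕ)) : ℤ)) : ZMod (m / 1)) =
        Sk m (α : ZMod m) (β : ZMod m) := by
      rw [Nat.div_one]
      simp
    rw [h3] at h2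
    rw [h2]
    refine Finset.sum_congr rfl fun d _ => ?_
    have h4 : ((d : ℤ) ∣ β ∧ (d : ℤ) ∣ α) ↔ ((d : ℤ) ∣ α ∧ (d : ℤ) ∣ β) := And.comm
    by_cases h : (d : ℤ) ∣ α ∧ (d : ℤ) ∣ β
    · rw [if_pos h, if_pos (h4.2 h), Int.cast_one, mul_comm (β / (d : ℤ))]
    · rw [if_neg h, if_neg (fun h' => h (h4.1 h'))]
  · intro g _ hg1
    rw [if_neg]
    rintro ⟨-, h⟩
    apply hg1
    have h5 : g ∣ 1 := by exact_mod_cast h
    exact Nat.dvd_one.1 h5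
  · intro h
    exact absurd (Nat.one_mem_divisors.2 hm.ne') h

theorem dvd_sign {s : ℤ} (hs : s = 1 ∨ s = -1) (d a : ℕ) : (d : ℤ) ∣ -(s * a) ↔ d ∣ a := by
  rcases hs with rfl | rfl
  · rw [one_mul, dvd_neg, Int.natCast_dvd_natCast]
  · rw [neg_one_mul, neg_neg, Int.natCast_dvd_natCast]

theorem dvd_sign' {s : ℤ} (hs : s = 1 ∨ s = -1) (d a N : ℕ) (hN : Nat.Coprime d N) :
    (d : ℤ) ∣ -((N : ℤ) * (s * a)) ↔ d ∣ a := by
  have h : (d : ℤ) ∣ -((N : ℤ) * (s * a)) ↔ (d : ℤ) ∣ -(s * ((a * N : ℕ) : ℤ)) := by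
    have : -((N : ℤ) * (s * a)) = -(s * ((a * N : ℕ) : ℤ)) := by
      push_cast
      ring
    rw [this]
  rw [h, dvd_sign hs]
  exact ⟨fun h => hN.dvd_of_dvd_mul_right h, fun h => dvd_mul_of_dvd_left h N⟩

theorem sum_div_div (m : ℕ) (F : ℕ → ℕ → ℂ) (hm : 0 < m) :
    ∑ g ∈ m.divisors, ∑ d ∈ (m / g).divisors, F g d = ∑ q ∈ m.divisors, ∑ g ∈ q.divisors, F g (q / g) := by
  rw [Finset.sum_sigma', Finset.sum_sigma']
  refine Finset.sum_bij' (fun x _ => (⟨x.1 * x.2, x.1⟩ : (_ : ℕ) × ℕ)) (fun x _ => (⟨x.2, x.1 / x.2⟩ : (_ : ℕ) × ℕ))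
    ?_ ?_ ?_ ?_ ?_
  · rintro ⟨g, d⟩ h
    simp only [Finset.mem_sigma, Nat.mem_divisors] at h ⊢
    obtain ⟨⟨h1, -⟩, h2, h3⟩ := h
    have hg0 : 0 < g := Nat.pos_of_dvd_of_pos h1 hm
    have hmg : 0 < m / g := Nat.div_pos (Nat.le_of_dvd hm h1) hg0
    have hd0 : 0 < d := Nat.pos_of_dvd_of_pos h2 hmg
    refine ⟨⟨?_, hm.ne'⟩, dvd_mul_right _ _, (Nat.mul_pos hg0 hd0).ne'⟩
    rw [← Nat.mul_div_cancel' h1]
    exact mul_dvd_mul_left g h2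
  · rintro ⟨q, g⟩ h
    simp only [Finset.mem_sigma, Nat.mem_divisors] at h ⊢
    obtain ⟨⟨h1, -⟩, h2, h3⟩ := h
    have hq0 : 0 < q := Nat.pos_of_ne_zero h3
    have hg0 : 0 < g := Nat.pos_of_dvd_of_pos h2 hq0
    have hgm : g ∣ m := h2.trans h1
    refine ⟨⟨hgm, hm.ne'⟩, Nat.div_dvd_div h2 h1, (Nat.div_pos (Nat.le_of_dvd hm hgm) hg0).ne'⟩
  · rintro ⟨g, d⟩ h
    simp only [Finset.mem_sigma, Nat.mem_divisors] at h
    obtain ⟨⟨h1, -⟩, h2, h3⟩ := h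
    have hg0 : 0 < g := Nat.pos_of_dvd_of_pos h1 hm
    show (⟨g, g * d / g⟩ : (_ : ℕ) × ℕ) = ⟨g, d⟩
    rw [Nat.mul_div_cancel_left d hg0]
  · rintro ⟨q, g⟩ h
    simp only [Finset.mem_sigma, Nat.mem_divisors] at h
    obtain ⟨⟨h1, -⟩, h2, h3⟩ := h
    show (⟨g * (q / g), g⟩ : (_ : ℕ) × ℕ) = ⟨q, g⟩
    rw [Nat.mul_div_cancel' h2]
  · rintro ⟨g, d⟩ h
    simp only [Finset.mem_sigma, Nat.mem_divisors] at h
    obtain ⟨⟨h1, -⟩, h2, h3⟩ := h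
    have hg0 : 0 < g := Nat.pos_of_dvd_of_pos h1 hm
    show F g d = F g (g * d / g)
    rw [Nat.mul_div_cancel_left d hg0]

theorem K3_double (m : ℕ) [NeZero m] (a1 a2 a3 N : ℕ) (s1 s2 s3 : ℤ) (hs1 : s1 = 1 ∨ s1 = -1) (hs2 : s2 = 1 ∨ s2 = -1)
    (hs3 : s3 = 1 ∨ s3 = -1) (hN : Nat.Coprime N m) :
    K3 m ((-(s1 * a1) : ℤ) : ZMod m) ((-(s2 * a2) : ℤ) : ZMod m) ((-((N : ℤ) * (s3 * a3)) : ℤ) : ZMod m) =
      ∑ q ∈ m.divisors, ∑ g ∈ q.divisors, if g ∣ a2 ∧ g ∣ a3 ∧ q / g ∣ a1 ∧ q / g ∣ (a2 * a3) / g ^ 2 then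
        (q : ℂ) * Sk (m / q) 1 ((-(s1 * s2 * s3) * ((a1 * a2 * a3 / q ^ 2 : ℕ) : ℤ) * (N : ℤ) : ℤ) : ZMod (m / q)) else 0 := by
  have hm : 0 < m := Nat.pos_of_ne_zero (NeZero.ne m)
  have hs23 : s2 * s3 = 1 ∨ s2 * s3 = -1 := by
    rcases hs2 with rfl | rfl <;> rcases hs3 with rfl | rfl <;> simp
  have key : ∀ g ∈ m.divisors, (if (g : ℤ) ∣ -(s2 * a2) ∧ (g : ℤ) ∣ -((N : ℤ) * (s3 * a3)) then
      (g : ℂ) * Sk (m / g) ((-(s1 * a1) : ℤ) : ZMod (m / g))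
        (((-(s2 * a2)) / g * ((-((N : ℤ) * (s3 * a3))) / g) : ℤ) : ZMod (m / g)) else 0) =
      ∑ d ∈ (m / g).divisors, if g ∣ a2 ∧ g ∣ a3 ∧ d ∣ a1 ∧ d ∣ (a2 * a3) / g ^ 2 then
        ((g * d : ℕ) : ℂ) * Sk (m / (g * d)) 1 ((-(s1 * s2 * s3) * ((a1 * a2 * a3 / (g * d) ^ 2 : ℕ) : ℤ) * (N : ℤ) : ℤ) :
          ZMod (m / (g * d))) else 0 := by
    intro g hg
    obtain ⟨hgm, -⟩ := Nat.mem_divisors.1 hg
    have hg0 : 0 < g := Nat.pos_of_dvd_of_pos hgm hm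
    have hgz : (g : ℤ) ≠ 0 := by exact_mod_cast hg0.ne'
    have hmg : 0 < m / g := Nat.div_pos (Nat.le_of_dvd hm hgm) hg0
    haveI : NeZero (m / g) := ⟨hmg.ne'⟩
    have hgN : Nat.Coprime g N := (Nat.Coprime.coprime_dvd_right hgm hN).symm
    by_cases h2 : g ∣ a2
    swap
    · rw [if_neg (fun h => h2 ((dvd_sign hs2 g a2).1 h.1))]
      exact (Finset.sum_eq_zero fun d _ => if_neg fun h => h2 h.1).symm
    by_cases h3 : g ∣ a3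
    swap
    · rw [if_neg (fun h => h3 ((dvd_sign' hs3 g a3 N hgN).1 h.2))]
      exact (Finset.sum_eq_zero fun d _ => if_neg fun h => h3 h.2.1).symm
    rw [if_pos ⟨(dvd_sign hs2 g a2).2 h2, (dvd_sign' hs3 g a3 N hgN).2 h3⟩]
    obtain ⟨b2, rfl⟩ := h2
    obtain ⟨b3, rfl⟩ := h3
    have e1 : (-(s2 * ((g * b2 : ℕ) : ℤ))) / g * ((-((N : ℤ) * (s3 * ((g * b3 : ℕ) : ℤ)))) / g) =
        (N : ℤ) * ((s2 * s3) * ((b2 * b3 : ℕ) : ℤ)) := by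
      have e2 : -(s2 * ((g * b2 : ℕ) : ℤ)) = (g : ℤ) * (-(s2 * b2)) := by
        push_cast
        ring
      have e3 : -((N : ℤ) * (s3 * ((g * b3 : ℕ) : ℤ))) = (g : ℤ) * (-((N : ℤ) * (s3 * b3))) := by
        push_cast
        ring
      rw [e2, e3, Int.mul_ediv_cancel_left _ hgz, Int.mul_ediv_cancel_left _ hgz]
      push_cast
      ring
    have e4 : g * b2 * (g * b3) / g ^ 2 = b2 * b3 := by
      have : g * b2 * (g * b3) = g ^ 2 * (b2 * b3) := by ring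
      rw [this, Nat.mul_div_cancel_left _ (pow_pos hg0 2)]
    rw [e1, e4, Sk_selberg, Finset.mul_sum]
    refine Finset.sum_congr rfl fun d hd => ?_
    obtain ⟨hdm, -⟩ := Nat.mem_divisors.1 hd
    have hd0 : 0 < d := Nat.pos_of_dvd_of_pos hdm hmg
    have hdz : (d : ℤ) ≠ 0 := by exact_mod_cast hd0.ne'
    have hdN : Nat.Coprime d N := by
      have : d ∣ m := hdm.trans (Nat.div_dvd_of_dvd hgm)
      exact (Nat.Coprime.coprime_dvd_right this hN).symm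
    have hc1 : (d : ℤ) ∣ -(s1 * (a1 : ℤ)) ↔ d ∣ a1 := dvd_sign hs1 d a1
    have hc2 : (d : ℤ) ∣ (N : ℤ) * ((s2 * s3) * ((b2 * b3 : ℕ) : ℤ)) ↔ d ∣ b2 * b3 := by
      rw [← dvd_sign' hs23 d (b2 * b3) N hdN, dvd_neg]
    by_cases h4 : d ∣ a1 ∧ d ∣ b2 * b3
    swap
    · rw [if_neg (fun h => h4 ⟨hc1.1 h.1, hc2.1 h.2⟩), if_neg (fun h => h4 h.2.2), mul_zero]
    rw [if_pos ⟨hc1.2 h4.1, hc2.2 h4.2⟩, if_pos ⟨dvd_mul_right _ _, dvd_mul_right _ _, h4⟩]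
    obtain ⟨⟨b1, rfl⟩, ⟨e, he⟩⟩ := h4
    have e5 : (-(s1 * ((d * b1 : ℕ) : ℤ))) / d = -(s1 * b1) := by
      have : -(s1 * ((d * b1 : ℕ) : ℤ)) = (d : ℤ) * (-(s1 * b1)) := by
        push_cast
        ring
      rw [this, Int.mul_ediv_cancel_left _ hdz]
    have e6 : ((N : ℤ) * ((s2 * s3) * ((b2 * b3 : ℕ) : ℤ))) / d = (N : ℤ) * ((s2 * s3) * e) := by
      rw [he]
      have : (N : ℤ) * ((s2 * s3) * ((d * e : ℕ) : ℤ)) = (d : ℤ) * ((N : ℤ) * ((s2 * s3) * e)) := by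
        push_cast
        ring
      rw [this, Int.mul_ediv_cancel_left _ hdz]
    have e7 : d * b1 * (g * b2) * (g * b3) / (g * d) ^ 2 = b1 * e := by
      have : d * b1 * (g * b2) * (g * b3) = (g * d) ^ 2 * (b1 * e) := by
        calc d * b1 * (g * b2) * (g * b3) = g ^ 2 * d * b1 * (b2 * b3) := by ring
          _ = g ^ 2 * d * b1 * (d * e) := by rw [he]
          _ = (g * d) ^ 2 * (b1 * e) := by ring
      rw [this, Nat.mul_div_cancel_left _ (pow_pos (Nat.mul_pos hg0 hd0) 2)]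
    have e8 : (-(s1 * b1) * ((N : ℤ) * ((s2 * s3) * e)) : ℤ) =
        -(s1 * s2 * s3) * ((b1 * e : ℕ) : ℤ) * (N : ℤ) := by
      push_cast
      ring
    rw [e5, e6, e7, e8, Nat.div_div_eq_div_mul]
    push_cast
    ring
  rw [K3_formula, Finset.sum_congr rfl key,
    sum_div_div m (fun g d => if g ∣ a2 ∧ g ∣ a3 ∧ d ∣ a1 ∧ d ∣ (a2 * a3) / g ^ 2 then
        ((g * d : ℕ) : ℂ) * Sk (m / (g * d)) 1 ((-(s1 * s2 * s3) * ((a1 * a2 * a3 / (g * d) ^ 2 : ℕ) : ℤ) * (N : ℤ) : ℤ) :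
          ZMod (m / (g * d))) else 0) hm]
  refine Finset.sum_congr rfl fun q _ => Finset.sum_congr rfl fun g hg => ?_
  obtain ⟨hgq, -⟩ := Nat.mem_divisors.1 hg
  rw [Nat.mul_div_cancel' hgq]

end Pool.Agent.LibSM56K
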