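import Pool.Agent.LibSM56K.K3
import Pool.Agent.LibSM47.C_A
import Pool.Agent.LibSM47.D_D2
import Pool.Agent.LibSM47.D_B0

/-! # The exact formula for the dual coefficients (A4) -/

set_option autoImplicit false

namespace Pool.Agent.LibSM56K

open Complex
open Pool.Agent.LibSM47 (Z3 ff FT FT_sum3)
open Pool.Agent.LibSM47.SD (Tr pr sg sl Ph FT_Ph)

theorem sg_or (b : Bool) : sg b = 1 ∨ sg b = -1 := by
  cases b
  · right
    rfl
  · left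
    rfl

theorem FT_K3 (m : ℕ) [NeZero m] (n : ℕ) (hn : Nat.Coprime n m) (l : Z3 m) :
    FT m (ff m (n : ZMod m)) l = (m : ℂ) * K3 m (-l.1) (-l.2.1) (-((n : ZMod m)⁻¹ * l.2.2)) := by
  rw [FT_sum3]
  congr 1
  unfold K3
  refine Finset.sum_congr rfl fun x _ => ?_
  have hu : (n : ZMod m) * (n : ZMod m)⁻¹ = 1 := ZMod.coe_mul_inv_eq_one n hn
  have hc : ((n : ZMod m) * x.1 * x.2 + l.2.2 = 0) ↔ (x.1 * x.2 = -((n : ZMod m)⁻¹ * l.2.2)) := by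
    constructor
    · intro h
      have h1 : x.1 * x.2 = (n : ZMod m)⁻¹ * ((n : ZMod m) * x.1 * x.2) := by
        calc x.1 * x.2 = ((n : ZMod m) * (n : ZMod m)⁻¹) * (x.1 * x.2) := by rw [hu, one_mul]
          _ = _ := by ring
      rw [h1, eq_neg_of_add_eq_zero_left h]
      ring
    · intro h
      have h1 : (n : ZMod m) * x.1 * x.2 = (n : ZMod m) * (x.1 * x.2) := by ring
      rw [h1, h]
      have h2 : (n : ZMod m) * -((n : ZMod m)⁻¹ * l.2.2) = -(((n : ZMod m) * (n : ZMod m)⁻¹) * l.2.2) := by ring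
      rw [h2, hu, one_mul, neg_add_cancel]
  by_cases h : (n : ZMod m) * x.1 * x.2 + l.2.2 = 0
  · rw [if_pos h, if_pos (hc.1 h)]
    congr 1
    ring
  · rw [if_neg h, if_neg (fun h' => h (hc.2 h'))]

/-- The exact formula. -/
theorem FT_sl (m : ℕ) [NeZero m] (n : ℕ) (hn : Nat.Coprime n m) (b : Bool × Bool × Bool) (a : Tr) :
    FT m (ff m (n : ZMod m)) (sl m b a) = (m : ℂ) * ∑ q ∈ m.divisors, (q : ℂ) * (rho q a : ℂ) *
      Sk (m / q) 1 (-(((sg b.1 * sg b.2.1 * sg b.2.2 : ℤ)) : ZMod (m / q)) * ((pr a / q ^ 2 : ℕ) : ZMod (m / q)) *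
        (n : ZMod (m / q))⁻¹) := by
  rw [FT_K3 m n hn]
  congr 1
  obtain ⟨N, hN⟩ : ∃ N : ℕ, N = ((n : ZMod m)⁻¹).val := ⟨_, rfl⟩
  have hNz : ((N : ℕ) : ZMod m) = (n : ZMod m)⁻¹ := by rw [hN, ZMod.natCast_zmod_val]
  have hu : (n : ZMod m) * (n : ZMod m)⁻¹ = 1 := ZMod.coe_mul_inv_eq_one n hn
  have hNc : Nat.Coprime N m := by
    rw [← ZMod.isUnit_iff_coprime, hNz]
    exact IsUnit.of_mul_eq_one_right _ hu
  have e1 : -(sl m b a).1 = ((-(sg b.1 * ((a.1 : ℕ) : ℤ)) : ℤ) : ZMod m) := by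
    unfold sl
    push_cast
    ring
  have e2 : -(sl m b a).2.1 = ((-(sg b.2.1 * ((a.2.1 : ℕ) : ℤ)) : ℤ) : ZMod m) := by
    unfold sl
    push_cast
    ring
  have e3 : -((n : ZMod m)⁻¹ * (sl m b a).2.2) = ((-((N : ℤ) * (sg b.2.2 * ((a.2.2 : ℕ) : ℤ))) : ℤ) : ZMod m) := by
    rw [← hNz]
    unfold sl
    push_cast
    ring
  rw [e1, e2, e3, K3_double m _ _ _ N _ _ _ (sg_or _) (sg_or _) (sg_or _) hNc]
  refine Finset.sum_congr rfl fun q hq => ?_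
  obtain ⟨hqm, -⟩ := Nat.mem_divisors.1 hq
  have hNq : ((N : ℕ) : ZMod (m / q)) = (n : ZMod (m / q))⁻¹ := by
    have hdm : m / q ∣ m := Nat.div_dvd_of_dvd hqm
    have hnq : Nat.Coprime n (m / q) := Nat.Coprime.coprime_dvd_right hdm hn
    have h1 : ((n * N : ℕ) : ZMod m) = ((1 : ℕ) : ZMod m) := by
      push_cast
      rw [hNz, hu]
    have h2 : ((n * N : ℕ) : ZMod (m / q)) = ((1 : ℕ) : ZMod (m / q)) := by
      rw [ZMod.natCast_eq_natCast_iff] at h1 ⊢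
      exact h1.of_dvd hdm
    have h3 : (n : ZMod (m / q)) * (n : ZMod (m / q))⁻¹ = 1 := ZMod.coe_mul_inv_eq_one n hnq
    push_cast at h2
    calc ((N : ℕ) : ZMod (m / q)) = ((n : ZMod (m / q)) * (n : ZMod (m / q))⁻¹) * N := by rw [h3, one_mul]
      _ = (n : ZMod (m / q))⁻¹ * ((n : ZMod (m / q)) * N) := by ring
      _ = _ := by rw [h2, mul_one]
  rw [← Finset.sum_filter, Finset.sum_const, nsmul_eq_mul]
  have e4 : ((-(sg b.1 * sg b.2.1 * sg b.2.2) * (((a.1 : ℕ) * (a.2.1 : ℕ) * (a.2.2 : ℕ) / q ^ 2 : ℕ) : ℤ) * (N : ℤ) : ℤ) :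
      ZMod (m / q)) = -(((sg b.1 * sg b.2.1 * sg b.2.2 : ℤ)) : ZMod (m / q)) * ((pr a / q ^ 2 : ℕ) : ZMod (m / q)) *
        (n : ZMod (m / q))⁻¹ := by
    rw [← hNq]
    unfold pr
    generalize ((a.1 : ℕ) * (a.2.1 : ℕ) * (a.2.2 : ℕ) / q ^ 2 : ℕ) = k
    push_cast
    ring
  rw [e4]
  unfold rho
  ring

/-- The same for `Φ`, if no component is divisible by `m`. -/
theorem FT_Ph_sl (m : ℕ) [NeZero m] (n : ℕ) (hn : Nat.Coprime n m) (b : Bool × Bool × Bool) (a : Tr)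
    (h1 : ¬ m ∣ (a.1 : ℕ)) (h2 : ¬ m ∣ (a.2.1 : ℕ)) (h3 : ¬ m ∣ (a.2.2 : ℕ)) :
    FT m (Ph m (n : ZMod m)) (sl m b a) = (m : ℂ) * ∑ q ∈ m.divisors, (q : ℂ) * (rho q a : ℂ) *
      Sk (m / q) 1 (-(((sg b.1 * sg b.2.1 * sg b.2.2 : ℤ)) : ZMod (m / q)) * ((pr a / q ^ 2 : ℕ) : ZMod (m / q)) *
        (n : ZMod (m / q))⁻¹) := by
  have hne : ∀ (c : Bool) (k : ℕ), ¬ m ∣ k → ((sg c : ℤ) : ZMod m) * ((k : ℕ) : ZMod m) ≠ 0 := by
    intro c k hk h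
    apply hk
    rw [← ZMod.natCast_eq_zero_iff]
    rcases sg_or c with hc | hc
    · rw [hc, Int.cast_one, one_mul] at h
      exact h
    · rw [hc, Int.cast_neg, Int.cast_one, neg_one_mul, neg_eq_zero] at h
      exact h
  have hnu : IsUnit ((n : ℕ) : ZMod m) := (ZMod.isUnit_iff_coprime n m).2 hn
  rw [FT_Ph m (n : ZMod m) hnu (sl m b a) (hne _ _ h1) (hne _ _ h2) (hne _ _ h3), FT_sl m n hn b a]

theorem rho_le (q : ℕ) (a : Tr) : rho q a ≤ q.divisors.card := Finset.card_filter_le _ _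

theorem rho_sq (q : ℕ) (a : Tr) (h : rho q a ≠ 0) : q ^ 2 ∣ pr a := by
  unfold rho at h
  obtain ⟨g, hg⟩ := Finset.card_ne_zero.1 h
  rw [Finset.mem_filter, Nat.mem_divisors] at hg
  obtain ⟨⟨hgq, hq⟩, ⟨b2, h2⟩, ⟨b3, h3⟩, ⟨b1, h1⟩, ⟨e, he⟩⟩ := hg
  have hg0 : 0 < g := Nat.pos_of_dvd_of_pos hgq (Nat.pos_of_ne_zero hq)
  have h4 : (a.2.1 : ℕ) * (a.2.2 : ℕ) / g ^ 2 = b2 * b3 := by
    rw [h2, h3]
    have : g * b2 * (g * b3) = g ^ 2 * (b2 * b3) := by ring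
    rw [this, Nat.mul_div_cancel_left _ (pow_pos hg0 2)]
  rw [h4] at he
  refine ⟨b1 * e, ?_⟩
  unfold pr
  rw [h1, h2, h3]
  have h5 : q = g * (q / g) := (Nat.mul_div_cancel' hgq).symm
  calc q / g * b1 * (g * b2) * (g * b3) = g ^ 2 * (q / g) * b1 * (b2 * b3) := by ring
    _ = g ^ 2 * (q / g) * b1 * (q / g * e) := by rw [he]
    _ = (g * (q / g)) ^ 2 * (b1 * e) := by ring
    _ = q ^ 2 * (b1 * e) := by rw [← h5]

theorem Sk_norm (c : ℕ) (a b : ZMod c) : ‖Sk c a b‖ ≤ c := by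
  unfold Sk
  by_cases h : c = 0
  · rw [dif_pos h, norm_zero]
    exact Nat.cast_nonneg c
  · rw [dif_neg h]
    haveI : NeZero c := ⟨h⟩
    unfold Kl
    refine (norm_sum_le _ _).trans ?_
    have h1 : ∀ x : (ZMod c)ˣ, ‖(ZMod.stdAddChar (a * (x : ZMod c) + b * ((x⁻¹ : (ZMod c)ˣ) : ZMod c)) : ℂ)‖ = 1 :=
      fun x => AddChar.norm_apply _ _
    rw [Finset.sum_congr rfl fun x _ => h1 x, Finset.sum_const, nsmul_eq_mul, mul_one, Finset.card_univ,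
      ZMod.card_units_eq_totient]
    exact_mod_cast Nat.totient_le c

end Pool.Agent.LibSM56K
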